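import Pool.Agent.Q33.Conv.Main

set_option autoImplicit false

namespace Pool.Agent.Results.MP_49e939_nt.TwoAdic

open Finset

/-- For every `n ≥ 1` the rational number
`a(n) = (∑_{k=0}^{n} t_k t_{n-k}) / ((2n-1) C(3n,n))`, `t_k = C(6k,3k) C(3k,k)`, is `8 z` with `z` a natural number,
and `z` is odd if and only if `n` is a power of two. -/
theorem result : ∀ n : ℕ, 1 ≤ n → ∃ z : ℕ,
    (∑ k ∈ range (n + 1), (((6 * k).choose (3 * k) * (3 * k).choose k : ℕ) : ℚ) *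
      (((6 * (n - k)).choose (3 * (n - k)) * (3 * (n - k)).choose (n - k) : ℕ) : ℚ)) /
        ((2 * (n : ℚ) - 1) * ((3 * n).choose n : ℚ)) = 8 * z ∧
    (Odd z ↔ ∃ j : ℕ, n = 2 ^ j) := by
  intro n hn
  have hN := Pool.Agent.Q33.Conv.N_pos n hn
  have h8 : 8 * Pool.Agent.Q33.Conv.N n ∣ Pool.Agent.Q33.Conv.Sn n := by
    by_cases h : ∃ j, n = 2 ^ j
    · exact (Pool.Agent.Q33.Conv.dvd_pow_two n hn h).1
    · have := Pool.Agent.Q33.Conv.dvd_not_pow_two n hn h
      exact dvd_trans ⟨2, by ring⟩ this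
  obtain ⟨z, hz⟩ := h8
  refine ⟨z, ?_, ?_⟩
  · have e1 : (∑ k ∈ range (n + 1), (((6 * k).choose (3 * k) * (3 * k).choose k : ℕ) : ℚ) *
      (((6 * (n - k)).choose (3 * (n - k)) * (3 * (n - k)).choose (n - k) : ℕ) : ℚ)) =
        ((Pool.Agent.Q33.Conv.Sn n : ℕ) : ℚ) := by
      unfold Pool.Agent.Q33.Conv.Sn Pool.Agent.Q33.Conv.t
      push_cast
      rfl
    have e2 : ((2 * (n : ℚ) - 1) * ((3 * n).choose n : ℚ)) = ((Pool.Agent.Q33.Conv.N n : ℕ) : ℚ) := by
      unfold Pool.Agent.Q33.Conv.N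
      rw [Nat.cast_mul, Nat.cast_sub (by omega)]
      push_cast
      ring
    have hN0 : ((Pool.Agent.Q33.Conv.N n : ℕ) : ℚ) ≠ 0 := by exact_mod_cast hN.ne'
    rw [e1, e2, hz, div_eq_iff hN0]
    push_cast
    ring
  · constructor
    · intro hodd
      by_contra h
      obtain ⟨w, hw⟩ := Pool.Agent.Q33.Conv.dvd_not_pow_two n hn h
      have : 8 * Pool.Agent.Q33.Conv.N n * z = 8 * Pool.Agent.Q33.Conv.N n * (2 * w) := by
        rw [← hz, hw]; ring
      have h2 := Nat.eq_of_mul_eq_mul_left (by positivity) this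
      rw [h2] at hodd
      exact (Nat.not_odd_iff_even.mpr ⟨w, by ring⟩) hodd
    · intro h
      by_contra hodd
      rw [Nat.not_odd_iff_even] at hodd
      obtain ⟨w, hw⟩ := hodd
      apply (Pool.Agent.Q33.Conv.dvd_pow_two n hn h).2
      refine ⟨w, ?_⟩
      rw [hz, hw]
      ring

end Pool.Agent.Results.MP_49e939_nt.TwoAdic
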